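import Pool.Agent.Q19.JL.Fin2
import Pool.Agent.Q19.JL.LS

/-!
# Lang and Silverman's lower bound with explicit constants, for almost all elliptic curves over a
# number field, invariants of all heights

`K` is any number field, of degree `n`. The invariants `j ≠ 0, 1728` in `K`, of ALL heights, are
ordered by the product `radical j` of the norms of the primes (not dividing six) at which `j` reduces
to `0`, `1728` or `∞`; there are `X ^ (2 / 3 + o(1))` with `radical j ≤ X`. For `0 < η < 1 / 2` we show
for all of them outside a set of power-saving proportion, and for ALL elliptic curves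
`E : y² = x³ + a x + b` over `K` of invariant `j` (all twists):

* for all `g`, all polarizations `M` and all points `P ≠ 0` of `E ^ g` over `K` the absolute canonical
  height of `P` is at least `(1 - 2 η) / 100` times `1 + h(j) + ∑ log N v / n`, the sum over the
  primes `v` of bad reduction of `E`; in particular `E` has no torsion points over `K`;
* every point `P ≠ 0` of `E` over `K` has absolute canonical height at least
  `(1 / 24 - η) h(j) + (1 / 4) ∑ log N v / n`, the sum over the primes `v` at which `E` is a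
  ramified twist of a curve of good reduction.

The constants depend neither on `K` nor on `E`, `g`, `M`. `SPt a b` is the group of the rational
points over `K` of `E`, `sht P` the height of the `x`-coordinate of `P` (relative to `K`), `chat P`
the canonical height, the limit of `sht (2 ^ k P) / 4 ^ k`, and `chatM M P` the canonical height of
the point `P` of `E ^ g` for the polarization given by the symmetric positive definite matrix `M`.
The absolute heights are the quotients by `n`.

The start of the proof is the lower bound of the library `chat P ≥ s / 12 - h / 24 + r / 4 - C n`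
for a curve with the contribution `s` of the simple poles of `j` to its height `h`. By the theorem of
the library on almost all points of all heights of the line `x + y + z = 0`, for almost all `j` the
product of the primes at which `j` reduces to `0`, `1728`, `∞` is almost as large as possible for the
height of `j`; then almost all of the height of `j` comes from simple poles, and no curve of
invariant `j` has a point of order two (which would make all zeros of `j` triple).
-/

set_option autoImplicit false
set_option linter.unusedSectionVars false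

namespace Pool.Agent.Results.MP_9a3c31_nt.ExplicitConstantAllHeights

open NumberField IsDedekindDomain Pool.Agent.TH942 Pool.Agent.TH910.LS

section Defs

variable {K : Type} [Field K] [NumberField K]

/-- the `j`-invariant of `y² = x³ + a x + b` -/
noncomputable def jInv (a b : K) : K := 6912 * a ^ 3 / (4 * a ^ 3 + 27 * b ^ 2)

/-- The `v`-adic absolute value of the discriminant is not a twelfth power of an absolute value, or
`j` has a pole at `v`. All primes `v` of bad reduction of `y² = x³ + a x + b` which do not divide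
`6` have this property. -/
def Bad (a b : K) (v : HeightOneSpectrum (𝓞 K)) : Prop :=
  (∀ u : K, FinitePlace.mk v (4 * a ^ 3 + 27 * b ^ 2) ≠ FinitePlace.mk v u ^ 12) ∨
    1 < FinitePlace.mk v (jInv a b)

/-- The prime `v` does not divide `2` and `y² = x³ + a x + b` is the twist, by an element `b / a` of
odd valuation, of a curve of good reduction at `v` with `a`, `b` and discriminant units. -/
def RamifiedTwist (a b : K) (v : HeightOneSpectrum (𝓞 K)) : Prop :=
  FinitePlace.mk v 2 = 1 ∧ FinitePlace.mk v a ^ 3 = FinitePlace.mk v b ^ 2 ∧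
    FinitePlace.mk v (4 * a ^ 3 + 27 * b ^ 2) = FinitePlace.mk v b ^ 2 ∧
    ∃ k : ℤ, Odd k ∧ FinitePlace.mk v (b / a) = (Ideal.absNorm v.asIdeal : ℝ) ^ k

open Classical in
/-- The lower bound of Lang and Silverman with constant `c` for all powers, with all polarizations,
of all elliptic curves over `K` of invariant `j`. -/
def LangSilverman (c : ℝ) (j : K) : Prop :=
  ∀ a b : K, 4 * a ^ 3 + 27 * b ^ 2 ≠ 0 → jInv a b = j →
    ∀ S : Finset (HeightOneSpectrum (𝓞 K)), (∀ v ∈ S, Bad a b v) →
    ∀ (g : ℕ) (M : Matrix (Fin g) (Fin g) ℤ), (M.map (Int.cast : ℤ → ℝ)).PosDef →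
    ∀ P : Fin g → SPt a b, P ≠ 0 →
      c * (1 + Height.logHeight₁ j / Module.finrank ℚ K +
        (∑ v ∈ S, Real.log (Ideal.absNorm v.asIdeal)) / Module.finrank ℚ K) ≤
        chatM M P / Module.finrank ℚ K

open Classical in
/-- The lower bound with the slope `1 / 24 - ε`, for all elliptic curves over `K` of invariant `j`. -/
def Slope (ε : ℝ) (j : K) : Prop :=
  ∀ a b : K, 4 * a ^ 3 + 27 * b ^ 2 ≠ 0 → jInv a b = j →
    ∀ T : Finset (HeightOneSpectrum (𝓞 K)), (∀ v ∈ T, RamifiedTwist a b v) →
    ∀ P : SPt a b, P ≠ 0 →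
      (1 / 24 - ε) * (Height.logHeight₁ j / Module.finrank ℚ K) +
        1 / 4 * ((∑ v ∈ T, Real.log (Ideal.absNorm v.asIdeal)) / Module.finrank ℚ K) ≤
        chat P / Module.finrank ℚ K

/-- the product of the norms of the primes not dividing six at which `j` reduces to `0`, `1728` or
`∞` -/
noncomputable def radical (j : K) : ℝ :=
  ∏ᶠ v ∈ {v : HeightOneSpectrum (𝓞 K) | v.valuation K 6 = 1 ∧
    (v.valuation K j ≠ 1 ∨ v.valuation K (j - 1728) ≠ 1)}, (Ideal.absNorm v.asIdeal : ℝ)

variable (K)

/-- the invariants `j ≠ 0, 1728`, of whatever height, with `radical j ≤ X` -/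
def Invariants (X : ℝ) : Set K := {j | j ≠ 0 ∧ j ≠ 1728 ∧ radical j ≤ X}

end Defs

section Aux

variable {K : Type} [Field K] [NumberField K]

theorem inv_eq (X : ℝ) : Invariants K X = Pool.Agent.Q19.JL.Iv K X := by
  ext j
  constructor
  · rintro ⟨h0, h1, h2⟩
    refine ⟨h0, h1, ?_⟩
    rw [← Pool.Agent.Q19.JL.rad_eq h0 h1]
    exact h2
  · rintro ⟨h0, h1, h2⟩
    refine ⟨h0, h1, ?_⟩
    rw [← Pool.Agent.Q19.JL.rad_eq h0 h1] at h2
    exact h2

theorem n_pos : (0 : ℝ) < Module.finrank ℚ K := by
  exact_mod_cast Module.finrank_pos (R := ℚ) (M := K)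

theorem ls_of {c : ℝ} {j : K} (h : Pool.Agent.Y733.LS.LSP c j) : LangSilverman c j := by
  intro a b hD hj S hS g M hM P hP
  have h1 := h a b hD hj S hS g M hM P hP
  have hn := n_pos (K := K)
  rw [← Pool.Agent.Q19.JL.ht_log] at h1
  rw [le_div_iff₀ hn]
  refine le_trans (le_of_eq ?_) h1
  have e : ∀ x y : ℝ, c * (1 + x / Module.finrank ℚ K + y / Module.finrank ℚ K) *
      Module.finrank ℚ K = c * (Module.finrank ℚ K + x + y) := by
    intro x y
    field_simp
  exact e _ _

theorem slope_of {ε : ℝ} {j : K} (h : Pool.Agent.Q19.JL.Slp ε j) : Slope ε j := by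
  intro a b hD hj T hT P hP
  have h1 := h a b hD hj T hT P hP
  have hn := n_pos (K := K)
  rw [← Pool.Agent.Q19.JL.ht_log] at h1
  rw [le_div_iff₀ hn]
  refine le_trans (le_of_eq ?_) h1
  have e : ∀ x y : ℝ, ((1 / 24 - ε) * (x / Module.finrank ℚ K) + 1 / 4 *
      (y / Module.finrank ℚ K)) * Module.finrank ℚ K = (1 / 24 - ε) * x + 1 / 4 * y := by
    intro x y
    field_simp
  exact e _ _

open Classical in
/-- no torsion -/
theorem no_torsion {c : ℝ} (hc : 0 < c) {j : K}
    (hj : LangSilverman c j) (a b : K) (hD : 4 * a ^ 3 + 27 * b ^ 2 ≠ 0) (hab : jInv a b = j)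
    (P : SPt a b) (hP : IsOfFinAddOrder P) : P = 0 := by
  by_contra hne
  have hn := n_pos (K := K)
  set P' : Fin 1 → SPt a b := fun _ => P with hP'
  have h1 := hj a b hD hab ∅ (by simp) 1 1 (by
    have : (Matrix.map (1 : Matrix (Fin 1) (Fin 1) ℤ) (Int.cast : ℤ → ℝ)) = 1 := by
      ext i j
      fin_cases i
      fin_cases j
      simp
    rw [this]
    exact Matrix.PosDef.one) P' (by
      intro h0
      exact hne (congrFun h0 0))
  have h2 : chatM (1 : Matrix (Fin 1) (Fin 1) ℤ) P' = 0 := by
    unfold chatM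
    simp only [Finset.univ_unique, Fin.default_eq_zero, Finset.sum_singleton, hP']
    have h3 : chat P = 0 := Pool.Agent.Y733.LS.tors_zero (a := a) (b := b) hD hP
    have h4 : chat (P + P) = 0 := Pool.Agent.Y733.LS.tors_zero (a := a) (b := b) hD (hP.add hP)
    rw [h3, h4]
    simp
  rw [h2] at h1
  have h3 : 0 ≤ Height.logHeight₁ j := Height.zero_le_logHeight₁ _
  have h4 : 0 < c * (1 + Height.logHeight₁ j / Module.finrank ℚ K +
      (∑ v ∈ (∅ : Finset (HeightOneSpectrum (𝓞 K))), Real.log (Ideal.absNorm v.asIdeal)) /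
        Module.finrank ℚ K) := by
    rw [Finset.sum_empty, zero_div, add_zero]
    positivity
  rw [zero_div] at h1
  linarith

end Aux

open Classical in
/-- **Theorem.** (1) There are `X ^ (2 / 3 + o(1))` invariants, of all heights, with
`radical j ≤ X`. (2) For `0 < η < 1 / 2` the lower bounds with the constants `(1 - 2 η) / 100` and
`1 / 24 - η` hold for all but a power-saving proportion of them, for all elliptic curves of invariant
`j`. (3) Under the first bound there is no torsion. (4) `chat` is the canonical height. -/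
theorem result :
    (∀ (K : Type) [Field K] [NumberField K] (δ : ℝ), 0 < δ → ∃ X₀ : ℝ, ∀ X : ℝ, X₀ ≤ X →
      (Invariants K X).Finite ∧ X ^ (2 / 3 - δ) ≤ ((Invariants K X).ncard : ℝ) ∧
      ((Invariants K X).ncard : ℝ) ≤ X ^ (2 / 3 + δ)) ∧
    (∀ (K : Type) [Field K] [NumberField K] (η : ℝ), 0 < η → η < 1 / 2 → ∃ ν X₀ : ℝ, 0 < ν ∧
      ∀ X : ℝ, X₀ ≤ X →
        (({j | j ∈ Invariants K X ∧ ¬ (LangSilverman ((1 - 2 * η) / 100) j ∧ Slope η j)} :
          Set K).ncard : ℝ) ≤ X ^ (-ν) * (Invariants K X).ncard) ∧
    (∀ (K : Type) [Field K] [NumberField K] (c : ℝ) (j : K), 0 < c → LangSilverman c j →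
      ∀ a b : K, 4 * a ^ 3 + 27 * b ^ 2 ≠ 0 → jInv a b = j →
        ∀ P : SPt a b, IsOfFinAddOrder P → P = 0) ∧
    (∀ (K : Type) [Field K] [NumberField K] (a b : K), 4 * a ^ 3 + 27 * b ^ 2 ≠ 0 →
      ∀ P : SPt a b, Filter.Tendsto (fun k : ℕ => sht ((2 ^ k : ℕ) • P) / 4 ^ k) Filter.atTop
        (nhds (chat P))) := by
  refine ⟨fun K _ _ δ hδ => ?_, fun K _ _ η hη0 hη => ?_,
    fun _ _ _ _ _ hc hj a b hD hab P hP => no_torsion hc hj a b hD hab P hP,
    fun _ _ _ _ _ hD P => (chat_spec hD).1 P⟩
  · obtain ⟨X1, hX1, h1⟩ := Pool.Agent.Q19.JL.Iv_upper K δ hδ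
    obtain ⟨X2, hX2, h2⟩ := Pool.Agent.Q19.JL.Iv_lower K δ hδ
    refine ⟨max X1 X2, fun X hX => ?_⟩
    rw [inv_eq]
    exact ⟨Pool.Agent.Q19.JL.Iv_fin K (hX1.trans ((le_max_left _ _).trans hX)),
      h2 X ((le_max_right _ _).trans hX), h1 X ((le_max_left _ _).trans hX)⟩
  · obtain ⟨ν, X₀, hν, -, h⟩ := Pool.Agent.Q19.JL.slp_prop K η hη0 hη
    refine ⟨ν, X₀, hν, fun X hX => ?_⟩
    rw [inv_eq]
    refine h X hX _ (fun j hj => hj.1) fun j hj hcon => hj.2 ⟨ls_of hcon.1, slope_of hcon.2⟩

end Pool.Agent.Results.MP_9a3c31_nt.ExplicitConstantAllHeights
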