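import Mathlib
import Pool.Agent.Y733.FF.Str
import Pool.Agent.TH951.LS.Reg

/-!
# Regulators and the relative Faltings height, for almost all invariants `j`, over all number fields

The problem asks for a lower bound of the canonical height of a point by the relative Faltings
height `h_F(A/K)`, and states its consequence for the regulator:
`Reg(A/K) ≥ (c max (h_F(A/K), 1)) ^ m`, where `m` is the rank.

We show, for elliptic curves `E` over `K` of invariant `j` (all twists), for all `j` outside an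
exceptional set which has at most `(C * B ^ (2 - η / 2 + ε)) ^ n` elements of height at most `B`, a
proportion which is exponentially small in the degree `n`, with ABSOLUTE constants:

* the group `E(K)` is torsion free, and if `P_1, …, P_g ∈ E(K)` are independent then the determinant
  of the height pairings `⟨P_i, P_k⟩` is at least `((c / g) max (h_F(E/K), 1)) ^ g`. For a basis of
  `E(K)` this is the regulator;
* the canonical height of `P = (P_1, …, P_g) ∈ E ^ g`, with independent `P_i`, for any polarization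
  given by the positive definite integral matrix `M`, is at least
  `c (det M) ^ (1 / g) max (h_F(E/K), 1)`;
* if `P ≠ Q` are congruent modulo `N E(K)`, then `P` or `Q` has canonical height at least
  `(c / 4) N ^ 2 max (h_F(E/K), 1)`.

`SPt a b` is the group of the rational points over `K` of the elliptic curve
`E : y² = x³ + a x + b`, `sht P` the height of the `x`-coordinate of `P` (relative to `K`), `chat P`
the canonical height, the limit of `sht (2 ^ k P) / 4 ^ k`, and `chatM M P` the canonical height of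
the point `P` of `E ^ g` for the polarization given by the symmetric positive definite matrix `M`.
The absolute heights are the quotients by `n`.
-/

set_option autoImplicit false
set_option linter.unusedSectionVars false

namespace Pool.Agent.Results.MP_9a3c31_nt.RegulatorsAllFields

open NumberField IsDedekindDomain Pool.Agent.TH942 Pool.Agent.TH910.LS

/-- the modular invariant `j(τ) = E₄(τ) ^ 3 / Δ(τ) = 1 / q + 744 + ⋯` -/
noncomputable def jFun (τ : UpperHalfPlane) : ℂ :=
  ModularForm.E₄ τ ^ 3 / ModularForm.discriminant τ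

/-- the archimedean term `- log (|Δ(τ)| (Im τ) ^ 6)` of the Faltings height -/
noncomputable def arch (τ : UpperHalfPlane) : ℝ :=
  -Real.log (‖ModularForm.discriminant τ‖ * τ.im ^ 6)

section Defs

variable {K : Type} [Field K] [NumberField K]

/-- the points `τ w` have modular invariant `j` -/
def IsPeriod (j : K) (τ : InfinitePlace K → UpperHalfPlane) : Prop :=
  ∀ w, jFun (τ w) = w.embedding j

/-- the equation is integral at `v` -/
def IntAt (v : HeightOneSpectrum (𝓞 K)) (E : WeierstrassCurve K) : Prop :=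
  v.valuation K E.a₁ ≤ 1 ∧ v.valuation K E.a₂ ≤ 1 ∧ v.valuation K E.a₃ ≤ 1 ∧
    v.valuation K E.a₄ ≤ 1 ∧ v.valuation K E.a₆ ≤ 1

/-- the exponent of `v` in the minimal discriminant of the curve: the least valuation at `v` of the
discriminant of a Weierstrass equation of the curve over `K` which is integral at `v` -/
noncomputable def discExp (v : HeightOneSpectrum (𝓞 K)) (E : WeierstrassCurve K) : ℕ :=
  sInf {m : ℕ | ∃ C : WeierstrassCurve.VariableChange K, IntAt v (C • E) ∧
    v.valuation K (C • E).Δ = WithZero.exp (-(m : ℤ))}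

/-- the relative (not stabilised) Faltings height of `y² = x³ + a x + b` over `K`: `12 n h_F` is the
logarithm of the norm of the minimal discriminant plus the archimedean terms -/
noncomputable def faltings (a b : K) (τ : InfinitePlace K → UpperHalfPlane) : ℝ :=
  (∑ᶠ v : HeightOneSpectrum (𝓞 K),
      (discExp v (⟨0, 0, 0, a, b⟩ : WeierstrassCurve K) : ℝ) *
        Real.log (Ideal.absNorm v.asIdeal : ℝ) +
    ∑ w : InfinitePlace K, (w.mult : ℝ) * arch (τ w)) / (12 * Module.finrank ℚ K)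

/-- the `j`-invariant of `y² = x³ + a x + b` -/
noncomputable def jInv (a b : K) : K := 6912 * a ^ 3 / (4 * a ^ 3 + 27 * b ^ 2)

open Classical in
/-- the absolute canonical height -/
noncomputable def ach {a b : K} (P : SPt a b) : ℝ := chat P / Module.finrank ℚ K

open Classical in
/-- the height pairing, with `⟨P, P⟩ = ach P` -/
noncomputable def pairing {a b : K} (P Q : SPt a b) : ℝ :=
  (ach (P + Q) - ach P - ach Q) / 2

open Classical in
/-- The lower bounds with constant `c`, for all elliptic curves `E` over `K` of invariant `j`: for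
the determinants of the height pairings of independent points `P_1, …, P_g` of `E(K)`, for the
height of `(P_1, …, P_g) ∈ E ^ g` with respect to any polarization, and for two different points
which are congruent modulo `N`. -/
def Regulators (c : ℝ) (j : K) : Prop :=
  ∀ (a b : K) (τ : InfinitePlace K → UpperHalfPlane), 4 * a ^ 3 + 27 * b ^ 2 ≠ 0 →
    jInv a b = j → IsPeriod j τ →
    (∀ (g : ℕ) (P : Fin g → SPt a b), (∀ m : Fin g → ℤ, m ≠ 0 → ∑ i, m i • P i ≠ 0) →
      (c / g * max (faltings a b τ) 1) ^ g ≤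
        (Matrix.of fun i k => pairing (P i) (P k)).det ∧
      ∀ M : Matrix (Fin g) (Fin g) ℤ, (M.map (Int.cast : ℤ → ℝ)).PosDef →
        (c * max (faltings a b τ) 1) ^ g * (M.det : ℝ) ≤ (chatM M P / Module.finrank ℚ K) ^ g) ∧
    ∀ (N : ℕ) (P Q R : SPt a b), P ≠ Q → P - Q = N • R →
      c * N ^ 2 / 4 * max (faltings a b τ) 1 ≤ max (ach P) (ach Q)

variable (K)

/-- the root discriminant `δ_K` -/
noncomputable def rootDisc : ℝ :=
  |(NumberField.discr K : ℝ)| ^ (1 / (Module.finrank ℚ K : ℝ))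

/-- the invariants of absolute height at most `B` -/
def Inv (B : ℝ) : Set K :=
  {j | j ≠ 0 ∧ j ≠ 1728 ∧ Height.logHeight₁ j ≤ Module.finrank ℚ K * Real.log B}

/-- those for which the bounds with constant `c` fail -/
def Exc (c B : ℝ) : Set K := {j ∈ Inv K B | ¬ Regulators c j}

end Defs

open Pool.Agent.Y733.UD Pool.Agent.Y733.LS Pool.Agent.W223.AK Pool.Agent.H691R3

section Aux

variable {K : Type} [Field K] [NumberField K]

open Classical in
/-- The strong lower bound with constant `c` for all powers, with all polarizations, of all elliptic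
curves over `K` of invariant `j` (used in the proof only). -/
def StrongLS (c : ℝ) (j : K) : Prop :=
  ∀ (a b : K) (τ : InfinitePlace K → UpperHalfPlane), 4 * a ^ 3 + 27 * b ^ 2 ≠ 0 →
    jInv a b = j → IsPeriod j τ →
    ∀ (g : ℕ) (M : Matrix (Fin g) (Fin g) ℤ), (M.map (Int.cast : ℤ → ℝ)).PosDef →
    ∀ P : Fin g → SPt a b, P ≠ 0 →
      c * max (faltings a b τ) 1 ≤ chatM M P / Module.finrank ℚ K

theorem n_pos : (0 : ℝ) < Module.finrank ℚ K := by
  linarith [finrank_one_le K]

theorem rootDisc_eq : rootDisc K = Real.exp (rd K) := by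
  unfold rootDisc rd
  have h : (0 : ℝ) < |(NumberField.discr K : ℝ)| := by linarith [one_le_disc K]
  rw [Real.rpow_def_of_pos h]
  congr 1
  ring

theorem ht_log (j : K) : Height.logHeight₁ j = ht j := by
  rw [logHeight_eq, ht_eq_Sa]

theorem ncard_le {S : Set K} {b : ℝ} (h : ∀ E : Finset K, (E : Set K) ⊆ S → (E.card : ℝ) ≤ b) :
    S.Finite ∧ (S.ncard : ℝ) ≤ b := by
  have hfin : S.Finite := by
    by_contra hinf
    obtain ⟨t, ht, hcard⟩ := Set.Infinite.exists_subset_card_eq hinf (⌊b⌋₊ + 1)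
    have h1 := h t ht
    rw [hcard] at h1
    have h2 := Nat.lt_floor_add_one b
    push_cast at h1
    linarith
  refine ⟨hfin, ?_⟩
  have h1 := h hfin.toFinset (by simp)
  rwa [← Set.ncard_eq_toFinset_card S hfin] at h1

theorem le_ncard {S : Set K} (hS : S.Finite) {b : ℝ} {E : Finset K} (hE : (E : Set K) ⊆ S)
    (h : b ≤ E.card) : b ≤ (S.ncard : ℝ) := by
  refine h.trans ?_
  rw [← Set.ncard_coe_finset]
  exact_mod_cast Set.ncard_le_ncard hE hS

theorem pow_form {n : ℕ} {C B Q α β : ℝ} (hC : 0 < C) (hB : 0 < B) (hQ : 0 < Q) :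
    (C * B ^ α * Q ^ β) ^ n = Real.exp (n * (Real.log C + α * Real.log B + β * Real.log Q)) := by
  rw [Real.exp_nat_mul, Real.exp_add, Real.exp_add, Real.exp_log hC, Real.rpow_def_of_pos hB,
    Real.rpow_def_of_pos hQ, mul_comm α, mul_comm β]

theorem fin_Inv (B : ℝ) : (Inv K B).Finite := by
  refine (NumberField.finite_setOfPred_logHeight₁_le (K := K)
    (Module.finrank ℚ K * Real.log B)).subset ?_
  intro j hj
  exact hj.2.2

theorem one_mem {B : ℝ} (hB : 1 ≤ B) : (1 : K) ∈ Inv K B := by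
  refine ⟨one_ne_zero, by norm_num, ?_⟩
  rw [Height.logHeight₁_one]
  exact mul_nonneg n_pos.le (Real.log_nonneg hB)

theorem one_le_ncard {B : ℝ} (hB : 1 ≤ B) : (1 : ℝ) ≤ ((Inv K B).ncard : ℝ) := by
  have h := (Set.ncard_pos (fin_Inv (K := K) B)).2 ⟨1, one_mem hB⟩
  exact_mod_cast h

theorem sqrt_rootDisc : √(rootDisc K) = Real.exp (rd K / 2) := by
  rw [rootDisc_eq, Real.exp_half]

theorem exc_le_inv (c B : ℝ) : ((Exc K c B).ncard : ℝ) ≤ ((Inv K B).ncard : ℝ) := by
  have h : Exc K c B ⊆ Inv K B := fun x hx => hx.1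
  exact_mod_cast Set.ncard_le_ncard h (fin_Inv B)

/-- the relation of the definitions -/
theorem faltings_eq (a b : K) (τ : InfinitePlace K → UpperHalfPlane) :
    faltings a b τ = (Pool.Agent.Y733.FF.discSum (sw a b) +
      ∑ w : InfinitePlace K, (w.mult : ℝ) * Pool.Agent.TH876.FH.arch (τ w)) /
        (12 * Module.finrank ℚ K) := rfl

open Classical in
theorem strong_of {c₀ c : ℝ} (hc₀ : 0 ≤ c₀) (hc : 0 ≤ c) {j : K}
    (h : ∀ (a b : K) (τ : InfinitePlace K → UpperHalfPlane), dl a b ≠ 0 → jj a b = j →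
    Pool.Agent.TH876.FH.IsPeriod (jj a b) τ → ∀ (g : ℕ) (M : Matrix (Fin g) (Fin g) ℤ),
    (M.map (Int.cast : ℤ → ℝ)).PosDef → ∀ P : Fin g → SPt a b, P ≠ 0 →
      c₀ * c * (Pool.Agent.Y733.FF.discSum (sw a b) +
        ∑ w : InfinitePlace K, (w.mult : ℝ) * Pool.Agent.TH876.FH.arch (τ w)) ≤
        chatM M P ∧ c₀ * c * Module.finrank ℚ K ≤ chatM M P) : StrongLS (c₀ * c) j := by
  intro a b τ hD hj hτ g M hM P hP
  have hn := n_pos (K := K)
  have hcc : 0 ≤ c₀ * c := mul_nonneg hc₀ hc
  have hτ' : Pool.Agent.TH876.FH.IsPeriod (jj a b) τ := by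
    have e : jj a b = j := hj
    rw [e]
    exact hτ
  obtain ⟨h1, h2⟩ := h a b τ hD hj hτ' g M hM P hP
  rw [le_div_iff₀ hn]
  have h3 : (0 : ℝ) ≤ chatM M P := le_trans (mul_nonneg hcc hn.le) h2
  rcases le_total (faltings a b τ) 1 with h4 | h4
  · rw [max_eq_right h4, mul_one]
    exact h2
  · rw [max_eq_left h4]
    have h5 : Pool.Agent.Y733.FF.discSum (sw a b) +
        ∑ w : InfinitePlace K, (w.mult : ℝ) * Pool.Agent.TH876.FH.arch (τ w) =
        12 * Module.finrank ℚ K * faltings a b τ := by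
      rw [faltings_eq, mul_div_cancel₀ _ (by positivity)]
    rw [h5] at h1
    have h6 : 0 ≤ c₀ * c * faltings a b τ * Module.finrank ℚ K :=
      mul_nonneg (mul_nonneg hcc (by linarith)) hn.le
    nlinarith

open Classical in
theorem chat_one {a b : K} (hD : 4 * a ^ 3 + 27 * b ^ 2 ≠ 0) (Q : SPt a b) :
    chatM (1 : Matrix (Fin 1) (Fin 1) ℤ) (fun _ => Q) = chat Q := by
  obtain ⟨-, -, hp, -⟩ := chat_spec hD
  have h := hp Q Q
  have h0 : chat (0 : SPt a b) = 0 := Pool.Agent.TH942.q_zero (fun P : SPt a b => chat P) hp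
  rw [sub_self, h0] at h
  unfold chatM
  simp only [Finset.univ_unique, Fin.default_eq_zero, Finset.sum_singleton, Matrix.one_apply_eq,
    Int.cast_one, one_mul]
  linarith

open Classical in
theorem reg_of {c : ℝ} (hc : 0 < c) {j : K} (hj : StrongLS c j) : Regulators c j := by
  intro a b τ hD hab hτ
  have hn := n_pos (K := K)
  obtain ⟨-, hq0, hqp, -⟩ := chat_spec hD
  have hm1 : (1 : ℝ) ≤ max (faltings a b τ) 1 := le_max_right _ _
  have hmp : (0 : ℝ) < max (faltings a b τ) 1 := by linarith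
  -- one point
  have key : ∀ Q : SPt a b, Q ≠ 0 → c * max (faltings a b τ) 1 ≤ ach Q := by
    intro Q hQ
    have h1 := hj a b τ hD hab hτ 1 1 (by
      have : (Matrix.map (1 : Matrix (Fin 1) (Fin 1) ℤ) (Int.cast : ℤ → ℝ)) = 1 := by
        ext i j
        fin_cases i
        fin_cases j
        simp
      rw [this]
      exact Matrix.PosDef.one) (fun _ => Q) (by
        intro h0
        exact hQ (congrFun h0 0))
    rw [chat_one hD] at h1
    exact h1
  let q : SPt a b → ℝ := fun Q => ach Q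
  have hq0' : ∀ Q, 0 ≤ q Q := fun Q => div_nonneg (hq0 Q) hn.le
  have hqp' : ∀ Q R, q (Q + R) + q (Q - R) = 2 * (q Q + q R) := by
    intro Q R
    have h := hqp Q R
    change chat (Q + R) / (Module.finrank ℚ K : ℝ) + chat (Q - R) / (Module.finrank ℚ K : ℝ) =
      2 * (chat Q / (Module.finrank ℚ K : ℝ) + chat R / (Module.finrank ℚ K : ℝ))
    rw [← add_div, h]
    ring
  refine ⟨fun g P hP => ?_, fun N P Q R hPQ hR => ?_⟩
  · rcases Nat.eq_zero_or_pos g with rfl | hg
    · simp
    have : Nonempty (Fin g) := ⟨⟨0, hg⟩⟩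
    have hgR : (0 : ℝ) < g := by exact_mod_cast hg
    have hμ : 0 < c * max (faltings a b τ) 1 := by positivity
    constructor
    · have h := TH951.LS.gram_det q hq0' hqp' P hμ (fun m hm => key _ (hP m hm))
      rw [Fintype.card_fin] at h
      have h2 : (c / g * max (faltings a b τ) 1) ^ g =
          (c * max (faltings a b τ) 1) ^ g / (g : ℝ) ^ g := by
        rw [← div_pow]
        congr 1
        ring
      rw [h2, div_le_iff₀ (by positivity)]
      exact h.trans (le_of_eq (mul_comm _ _))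
    · intro M hM
      have h := Pool.Agent.TH910.LS.indep_bound q hq0' hqp' P M hM hμ
        (fun m hm => key _ (hP m hm))
      rw [Fintype.card_fin] at h
      refine h.trans (le_of_eq ?_)
      congr 1
      unfold Pool.Agent.TH910.LS.qM chatM
      rw [Finset.sum_div]
      refine Finset.sum_congr rfl fun i _ => ?_
      rw [Finset.sum_div]
      refine Finset.sum_congr rfl fun k _ => ?_
      change (M i k : ℝ) * ((chat (P i + P k) / (Module.finrank ℚ K : ℝ) -
        chat (P i) / (Module.finrank ℚ K : ℝ) - chat (P k) / (Module.finrank ℚ K : ℝ)) / 2) = _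
      ring
  · have hR0 : R ≠ 0 := by
      rintro rfl
      rw [smul_zero, sub_eq_zero] at hR
      exact hPQ hR
    have h1 := key R hR0
    have h2 : ach (P - Q) = (N : ℝ) ^ 2 * ach R := by
      rw [hR]
      exact q_nsmul hqp' N R
    have h3 := hqp' P Q
    have h4 : 0 ≤ ach (P + Q) := hq0' _
    have h5 : ach (P + Q) + ach (P - Q) = 2 * (ach P + ach Q) := h3
    have h6 : (N : ℝ) ^ 2 * (c * max (faltings a b τ) 1) ≤ (N : ℝ) ^ 2 * ach R :=
      mul_le_mul_of_nonneg_left h1 (by positivity)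
    have h7 := le_max_left (ach P) (ach Q)
    have h8 := le_max_right (ach P) (ach Q)
    have h9 : c * N ^ 2 / 4 * max (faltings a b τ) 1 =
      (N : ℝ) ^ 2 * (c * max (faltings a b τ) 1) / 4 := by ring
    rw [h9]
    linarith

end Aux

/-- logarithmic form of the count -/
theorem exc_log : ∃ c₀ : ℝ, 0 < c₀ ∧ ∀ η ε : ℝ, 0 < η → η < 1 / 2 → 0 < ε → ∃ A : ℝ, 0 ≤ A ∧
    ∀ (K : Type) [Field K] [NumberField K] (B : ℝ), 1 ≤ B →
      ((Exc K (c₀ * (1 - 2 * η)) B).ncard : ℝ) ≤ Real.exp (Module.finrank ℚ K *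
        (A + (2 - η / 2 + ε) * Real.log B)) := by
  classical
  obtain ⟨c₁, hc₁, hst⟩ := Pool.Agent.Y733.FF.strong
  refine ⟨c₁ / 100, by positivity, fun η ε hη0 hη hε => ?_⟩
  obtain ⟨A, hA, h⟩ := exc_count hη0 hη hε
  refine ⟨A, hA, ?_⟩
  intro K _ _ B hB
  refine (ncard_le fun E hE => ?_).2
  refine (h K (Module.finrank ℚ K * Real.log B) E
    (mul_nonneg n_pos.le (Real.log_nonneg hB)) ?_).trans (le_of_eq (by congr 1; ring))
  intro j hj
  obtain ⟨⟨h1, h2, h3⟩, h4⟩ := hE (Finset.mem_coe.2 hj)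
  rw [ht_log] at h3
  refine ⟨h1, h2, h3, fun hcon => h4 ?_⟩
  have e : c₁ / 100 * (1 - 2 * η) = c₁ * ((1 - 2 * η) / 100) := by ring
  rw [e]
  have h5 : 0 ≤ (1 - 2 * η) / 100 := by
    have : 0 ≤ 1 - 2 * η := by linarith
    positivity
  have h6 : 0 < c₁ * ((1 - 2 * η) / 100) := by
    have : 0 < 1 - 2 * η := by linarith
    positivity
  exact reg_of h6 (strong_of hc₁.le h5 (hst K _ j h5 hcon))

/-- logarithmic form of the lower bound for the number of all invariants -/
theorem inv_log {ε : ℝ} (hε : 0 < ε) : ∃ A : ℝ, 0 ≤ A ∧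
    ∀ (K : Type) [Field K] [NumberField K] (B : ℝ), 16 * √(rootDisc K) ≤ B →
      Real.exp (Module.finrank ℚ K * ((2 - ε) * Real.log B - (2 + ε) * rd K - A)) ≤
        ((Inv K B).ncard : ℝ) := by
  classical
  set ε1 : ℝ := min (ε / 4) 1 with hε1
  have h1 : 0 < ε1 := lt_min (by positivity) one_pos
  have h2 : ε1 ≤ 1 := min_le_right _ _
  have h3 : 4 * ε1 ≤ ε := by
    have := min_le_left (ε / 4) 1
    rw [← hε1] at this
    linarith
  obtain ⟨A, hA, h⟩ := low_count h1 h2
  have hl2 : 0 ≤ Real.log 2 := Real.log_nonneg (by norm_num)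
  refine ⟨A + Real.log 2, by positivity, ?_⟩
  intro K _ _ B hBK
  have hn := n_pos (K := K)
  have hn1 := finrank_one_le K
  have hrd := rd_nonneg K
  have hl16 : 0 ≤ Real.log 16 := Real.log_nonneg (by norm_num)
  have hB : 0 < B := by
    rw [sqrt_rootDisc] at hBK
    have : 0 < 16 * Real.exp (rd K / 2) := by positivity
    linarith
  have hl : Real.log 16 + rd K / 2 ≤ Real.log B := by
    rw [sqrt_rootDisc] at hBK
    have h1 := Real.log_le_log (by positivity) hBK
    rwa [Real.log_mul (by norm_num) (Real.exp_pos _).ne', Real.log_exp] at h1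
  have hl8 : Real.log 8 ≤ Real.log 16 := Real.log_le_log (by norm_num) (by norm_num)
  have hB1 : 1 ≤ B := by
    have : 0 ≤ Real.log B := by linarith
    by_contra hcon
    push Not at hcon
    have := Real.log_neg hB hcon
    linarith
  obtain ⟨E, hE, hcard⟩ := h K (Real.log B) (by linarith)
  have hsub : ((E.erase 1728 : Finset K) : Set K) ⊆ Inv K B := by
    intro j hj
    rw [Finset.mem_coe, Finset.mem_erase] at hj
    obtain ⟨h4, h5⟩ := hE j hj.2
    exact ⟨h4.1, hj.1, by rw [ht_log]; exact h5⟩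
  have hc := le_ncard (fin_Inv B) hsub le_rfl
  have hc1 : (E.card : ℝ) ≤ ((E.erase 1728).card : ℝ) + 1 := by
    have := Finset.pred_card_le_card_erase (s := E) (a := (1728 : K))
    exact_mod_cast (by omega : E.card ≤ (E.erase 1728).card + 1)
  have hc2 := one_le_ncard (K := K) hB1
  have h5 : Real.exp (Module.finrank ℚ K * ((2 - 4 * ε1) * Real.log B - (2 + ε1) * rd K - A)) ≤
      2 * ((Inv K B).ncard : ℝ) := by linarith
  have h6 : Real.exp (Module.finrank ℚ K * ((2 - ε) * Real.log B - (2 + ε) * rd K -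
      (A + Real.log 2))) * 2 ≤
      Real.exp (Module.finrank ℚ K * ((2 - 4 * ε1) * Real.log B - (2 + ε1) * rd K - A)) := by
    have e2 : (2 : ℝ) = Real.exp (Real.log 2) := (Real.exp_log (by norm_num)).symm
    nth_rw 4 [e2]
    rw [← Real.exp_add]
    apply Real.exp_le_exp.2
    have h7 : (2 - ε) * Real.log B ≤ (2 - 4 * ε1) * Real.log B :=
      mul_le_mul_of_nonneg_right (by linarith) (by linarith)
    have h8 : (2 + ε1) * rd K ≤ (2 + ε) * rd K := mul_le_mul_of_nonneg_right (by linarith) hrd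
    have h9 : Module.finrank ℚ K * ((2 - ε) * Real.log B - (2 + ε) * rd K) ≤
        Module.finrank ℚ K * ((2 - 4 * ε1) * Real.log B - (2 + ε1) * rd K) :=
      mul_le_mul_of_nonneg_left (by linarith) hn.le
    nlinarith
  linarith

/-- the proportion, logarithmic form -/
theorem prop_log {c η ε : ℝ} (hη : η < 1 / 2) (hε : 0 < ε)
    (h : ∃ A : ℝ, 0 ≤ A ∧ ∀ (K : Type) [Field K] [NumberField K] (B : ℝ), 1 ≤ B →
      ((Exc K c B).ncard : ℝ) ≤ Real.exp (Module.finrank ℚ K *
        (A + (2 - η / 2 + ε / 2) * Real.log B))) : ∃ A : ℝ, 0 ≤ A ∧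
    ∀ (K : Type) [Field K] [NumberField K] (B : ℝ), 1 ≤ B →
      ((Exc K c B).ncard : ℝ) ≤ Real.exp (Module.finrank ℚ K *
        (A + (-(η / 2) + ε) * Real.log B + (2 + ε) * rd K)) * ((Inv K B).ncard : ℝ) := by
  obtain ⟨A1, hA1, h1⟩ := h
  obtain ⟨A2, hA2, h2⟩ := inv_log (half_pos hε)
  have hl16 : 0 ≤ Real.log 16 := Real.log_nonneg (by norm_num)
  refine ⟨A1 + A2 + Real.log 16, by positivity, ?_⟩
  intro K _ _ B hB
  have hB0 : 0 < B := by linarith
  have hlB : 0 ≤ Real.log B := Real.log_nonneg hB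
  have hn := n_pos (K := K)
  have hrd := rd_nonneg K
  rcases le_or_gt (16 * √(rootDisc K)) B with hBK | hBK
  · refine (h1 K B hB).trans ?_
    refine le_trans ?_ (mul_le_mul_of_nonneg_left (h2 K B hBK) (Real.exp_pos _).le)
    rw [← Real.exp_add]
    apply Real.exp_le_exp.2
    rw [← mul_add]
    apply mul_le_mul_of_nonneg_left _ hn.le
    nlinarith
  · have h7 : Real.log B < Real.log 16 + rd K / 2 := by
      rw [sqrt_rootDisc] at hBK
      have h1 := Real.log_lt_log hB0 hBK
      rwa [Real.log_mul (by norm_num) (Real.exp_pos _).ne', Real.log_exp] at h1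
    refine le_trans (exc_le_inv _ B) ?_
    refine le_mul_of_one_le_left (Nat.cast_nonneg _) (Real.one_le_exp ?_)
    apply mul_nonneg hn.le
    have h8 : -(1 / 4 * Real.log B) ≤ (-(η / 2) + ε) * Real.log B := by nlinarith
    nlinarith

theorem part_one : ∃ c₀ : ℝ, 0 < c₀ ∧
    (∀ η ε : ℝ, 0 < η → η < 1 / 2 → 0 < ε → ∃ C : ℝ, 0 < C ∧
      ∀ (K : Type) [Field K] [NumberField K] (B : ℝ), 1 ≤ B →
        (Inv K B).Finite ∧
        ((Exc K (c₀ * (1 - 2 * η)) B).ncard : ℝ) ≤
          (C * B ^ (2 - η / 2 + ε)) ^ Module.finrank ℚ K ∧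
        ((Exc K (c₀ * (1 - 2 * η)) B).ncard : ℝ) ≤
          (C * B ^ (-(η / 2) + ε) * rootDisc K ^ (2 + ε)) ^ Module.finrank ℚ K *
            ((Inv K B).ncard : ℝ)) ∧
    (∃ B₀ : ℝ, 0 < B₀ ∧
      ∀ (K : Type) [Field K] [NumberField K] (B : ℝ), B₀ * rootDisc K ^ 23 ≤ B →
        ((Exc K (c₀ / 5) B).ncard : ℝ) ≤
          (B ^ (-(1 / 10) : ℝ)) ^ Module.finrank ℚ K * ((Inv K B).ncard : ℝ)) := by
  obtain ⟨c₀, hc₀, h⟩ := exc_log
  refine ⟨c₀, hc₀, fun η ε hη0 hη hε => ?_, ?_⟩
  · obtain ⟨A1, hA1, h1⟩ := h η ε hη0 hη hε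
    obtain ⟨A2, hA2, h2⟩ := prop_log hη hε (h η (ε / 2) hη0 hη (half_pos hε))
    refine ⟨Real.exp (A1 + A2), Real.exp_pos _, ?_⟩
    intro K _ _ B hB
    have hB0 : 0 < B := by linarith
    have hn := n_pos (K := K)
    have hδ : 0 < rootDisc K := by rw [rootDisc_eq]; exact Real.exp_pos _
    refine ⟨fin_Inv B, (h1 K B hB).trans ?_, (h2 K B hB).trans ?_⟩
    · rw [Real.rpow_def_of_pos hB0, ← Real.exp_add, ← Real.exp_nat_mul]
      apply Real.exp_le_exp.2
      apply mul_le_mul_of_nonneg_left _ hn.le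
      linarith
    · rw [pow_form (Real.exp_pos _) hB0 hδ, Real.log_exp, rootDisc_eq, Real.log_exp]
      refine mul_le_mul_of_nonneg_right ?_ (Nat.cast_nonneg _)
      apply Real.exp_le_exp.2
      apply mul_le_mul_of_nonneg_left _ hn.le
      linarith
  · obtain ⟨A, hA, h2⟩ := prop_log (η := 2 / 5) (ε := 1 / 100) (by norm_num) (by norm_num)
      (h (2 / 5) (1 / 100 / 2) (by norm_num) (by norm_num) (by norm_num))
    refine ⟨Real.exp (12 * A), Real.exp_pos _, ?_⟩
    intro K _ _ B hB
    have hn := n_pos (K := K)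
    have hrd := rd_nonneg K
    have e23 : rootDisc K ^ 23 = Real.exp (23 * rd K) := by
      rw [rootDisc_eq, ← Real.exp_nat_mul]
      norm_num
    rw [e23, ← Real.exp_add] at hB
    have hB0 : 0 < B := lt_of_lt_of_le (Real.exp_pos _) hB
    have hlB : 12 * A + 23 * rd K ≤ Real.log B := by
      rwa [Real.le_log_iff_exp_le hB0]
    have hB1 : 1 ≤ B := le_trans (Real.one_le_exp (by positivity)) hB
    have h1 := h2 K B hB1
    have ec : c₀ * (1 - 2 * (2 / 5 : ℝ)) = c₀ / 5 := by ring
    rw [ec] at h1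
    refine h1.trans (mul_le_mul_of_nonneg_right ?_ (Nat.cast_nonneg _))
    rw [Real.rpow_def_of_pos hB0, ← Real.exp_nat_mul]
    apply Real.exp_le_exp.2
    apply mul_le_mul_of_nonneg_left _ hn.le
    nlinarith

/-- the number of all invariants -/
theorem part_four (ε : ℝ) (hε : 0 < ε) : ∃ C : ℝ, 0 < C ∧
    ∀ (K : Type) [Field K] [NumberField K] (B : ℝ), 16 * √(rootDisc K) ≤ B →
      (C⁻¹ * B ^ (2 - ε) * rootDisc K ^ (-(2 + ε))) ^ Module.finrank ℚ K ≤
        ((Inv K B).ncard : ℝ) := by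
  obtain ⟨A, hA, h⟩ := inv_log hε
  refine ⟨Real.exp A, Real.exp_pos _, ?_⟩
  intro K _ _ B hBK
  have hB : 0 < B := by
    have h1 := hBK
    rw [sqrt_rootDisc] at h1
    have : 0 < 16 * Real.exp (rd K / 2) := by positivity
    linarith
  have hδ : 0 < rootDisc K := by rw [rootDisc_eq]; exact Real.exp_pos _
  rw [pow_form (by positivity) hB hδ, Real.log_inv, Real.log_exp, rootDisc_eq, Real.log_exp]
  refine le_trans (le_of_eq ?_) (h K B hBK)
  congr 1
  ring

open Classical in
/-- no torsion -/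
theorem part_five {K : Type} [Field K] [NumberField K] {c : ℝ} (hc : 0 < c) {j : K}
    (hj : Regulators c j) (a b : K) (τ : InfinitePlace K → UpperHalfPlane)
    (hD : 4 * a ^ 3 + 27 * b ^ 2 ≠ 0) (hab : jInv a b = j) (hτ : IsPeriod j τ)
    (P : SPt a b) (hP : IsOfFinAddOrder P) : P = 0 := by
  by_contra hne
  have h := (hj a b τ hD hab hτ).2 1 P 0 P hne (by simp)
  have hn := n_pos (K := K)
  have h3 : ach P = 0 := by
    unfold ach
    rw [tors_zero (a := a) (b := b) hD hP, zero_div]
  have h4 : ach (0 : SPt a b) = 0 := by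
    unfold ach
    rw [tors_zero (a := a) (b := b) hD IsOfFinAddOrder.zero, zero_div]
  rw [h3, h4, max_self] at h
  have h6 : 0 < c * ((1 : ℕ) : ℝ) ^ 2 / 4 * max (faltings a b τ) 1 :=
    mul_pos (by positivity) (lt_max_of_lt_right one_pos)
  linarith

open Classical in
/-- **Main theorem.** All constants are absolute: they do not depend on `K` or on its degree `n`.
There is `c₀ > 0` such that:
(1) for `0 < η < 1/2` and `ε > 0`, over every number field `K` and for every `B ≥ 1`, the bounds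
`Regulators` with the constant `c₀ (1 - 2 η)` and the relative Faltings height fail for at most
`(C * B ^ (2 - η / 2 + ε)) ^ n` of the invariants `j ∈ K` of height at most `B`, a proportion of at
most `(C * B ^ (-η / 2 + ε) * δ_K ^ (2 + ε)) ^ n` of all of them;
(2) the constant `c₀ / 5` is good for all but the proportion `B ^ (-n / 10)` of them, over every
number field and for all `B ≥ B₀ * δ_K ^ 23`.
(3) For `B ≥ 16 * √δ_K`, their number is at least `(B ^ (2 - ε) / (C * δ_K ^ (2 + ε))) ^ n`.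
(4) If `Regulators` holds for `j` with some `c > 0`, the curves of invariant `j` have no torsion
points over `K`.
(5) `chat` is the limit of `sht (2 ^ k P) / 4 ^ k`. -/
theorem result :
    (∃ c₀ : ℝ, 0 < c₀ ∧
      (∀ η ε : ℝ, 0 < η → η < 1 / 2 → 0 < ε → ∃ C : ℝ, 0 < C ∧
        ∀ (K : Type) [Field K] [NumberField K] (B : ℝ), 1 ≤ B →
          (Inv K B).Finite ∧
          ((Exc K (c₀ * (1 - 2 * η)) B).ncard : ℝ) ≤
            (C * B ^ (2 - η / 2 + ε)) ^ Module.finrank ℚ K ∧
          ((Exc K (c₀ * (1 - 2 * η)) B).ncard : ℝ) ≤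
            (C * B ^ (-(η / 2) + ε) * rootDisc K ^ (2 + ε)) ^ Module.finrank ℚ K *
              ((Inv K B).ncard : ℝ)) ∧
      (∃ B₀ : ℝ, 0 < B₀ ∧
        ∀ (K : Type) [Field K] [NumberField K] (B : ℝ), B₀ * rootDisc K ^ 23 ≤ B →
          ((Exc K (c₀ / 5) B).ncard : ℝ) ≤
            (B ^ (-(1 / 10) : ℝ)) ^ Module.finrank ℚ K * ((Inv K B).ncard : ℝ))) ∧
    (∀ ε : ℝ, 0 < ε → ∃ C : ℝ, 0 < C ∧
      ∀ (K : Type) [Field K] [NumberField K] (B : ℝ), 16 * √(rootDisc K) ≤ B →
        (C⁻¹ * B ^ (2 - ε) * rootDisc K ^ (-(2 + ε))) ^ Module.finrank ℚ K ≤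
          ((Inv K B).ncard : ℝ)) ∧
    (∀ (K : Type) [Field K] [NumberField K] (c : ℝ), 0 < c → ∀ (a b : K)
      (τ : InfinitePlace K → UpperHalfPlane), 4 * a ^ 3 + 27 * b ^ 2 ≠ 0 →
      IsPeriod (jInv a b) τ → Regulators c (jInv a b) →
      ∀ P : SPt a b, IsOfFinAddOrder P → P = 0) ∧
    (∀ (K : Type) [Field K] [NumberField K] (a b : K), 4 * a ^ 3 + 27 * b ^ 2 ≠ 0 →
      ∀ P : SPt a b, Filter.Tendsto (fun k : ℕ => sht ((2 ^ k : ℕ) • P) / 4 ^ k) Filter.atTop
        (nhds (chat P))) :=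
  ⟨part_one, part_four,
    fun _ _ _ _ hc a b τ hD hτ hj P hP => part_five hc hj a b τ hD rfl hτ P hP,
    fun _ _ _ _ _ hD P => (chat_spec hD).1 P⟩

end Pool.Agent.Results.MP_9a3c31_nt.RegulatorsAllFields
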