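import Pool.Agent.Q229.RAF
import Pool.Agent.Results.MP_9a3c31_nt.RegulatorsAllFields

/-!
# MP_9a3c31_nt: regulator bounds with an ABSOLUTE constant for ALL good approximations of almost every number, over all number fields

`Regulators c j`: for all elliptic curves `E` over `K` of invariant `j`, the determinants of the height pairings of `g`
independent points are at least `((c / g) max (h_F(E/K), 1)) ^ g`, the heights of such points of `E ^ g` for the polarization
`M` satisfy `ĥ_M(P) ^ g ≥ (c max (h_F, 1)) ^ g det M`, and of two different points congruent modulo `N` one has height at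
least `c N ^ 2 / 4 max (h_F, 1)`. The starting file `RegulatorsAllFields` shows this with an absolute constant `c` for all
but a small proportion of the invariants `j ∈ K` of bounded height.

Here: let `n = [K : ℚ]` and `H(j)` the absolute multiplicative height. Almost every complex (real) number `z` has infinitely
many approximations `j` in a given number field `K ⊆ ℂ` (`K ⊆ ℝ`) with `|j - z| ≤ H(j)^(-τ)` for `τ < n` (`τ < 2 n`), and only
finitely many for `τ > n` (`τ > 2 n`). We show: there is an absolute constant `c₀ > 0` such that, for almost every complex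
number `z` (every real number), for EVERY number field `K ⊆ ℂ` and all `0 < c < c₀`, the bounds `Regulators c j` hold for ALL
but finitely many of the `j ∈ K` with `|j - z| ≤ H(j)^(-n)` (`H(j)^(-2 n)`). The numbers with infinitely many exceptions of
exponent `τ` form a set of Hausdorff dimension at most `n (2 - η / 2) / τ` for `c = c₀ (1 - 2 η)`.

Proof: the number of exceptional invariants of bounded height (`RegulatorsAllFields`) and a covering.
-/

set_option autoImplicit false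

namespace Pool.Agent.Results.MP_9a3c31_nt.GoodApproximations

open NumberField MeasureTheory
open Pool.Agent.Results.MP_9a3c31_nt.RegulatorsAllFields (Regulators Exc)

/-- the absolute multiplicative height -/
noncomputable def H {K : Type} [Field K] [NumberField K] (j : K) : ℝ :=
  Real.exp (Height.logHeight₁ j / Module.finrank ℚ K)

/-- the invariants for which the bounds with the constant `c` fail -/
def Fails (K : Type) [Field K] [NumberField K] (c : ℝ) : Set K := {j | ¬ Regulators c j}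

theorem count : ∃ c₀ : ℝ, 0 < c₀ ∧ ∀ η : ℝ, 0 < η → η < 1 / 2 → ∀ (K : Type) [Field K] [NumberField K] (σ' : ℝ),
    (Module.finrank ℚ K : ℝ) * (2 - η / 2) < σ' → ∃ C T₀ : ℝ, ∀ T : ℝ, T₀ ≤ T →
      {x | x ∈ Fails K (c₀ * (1 - 2 * η)) ∧ H x ≤ T}.Finite ∧
      ({x | x ∈ Fails K (c₀ * (1 - 2 * η)) ∧ H x ≤ T}.ncard : ℝ) ≤ C * T ^ σ' := by
  obtain ⟨⟨c₀, hc₀, h1, -⟩, -⟩ := RegulatorsAllFields.result
  refine ⟨c₀, hc₀, fun η hη hη2 K _ _ σ' hσ => ?_⟩
  have hn : (0 : ℝ) < (Module.finrank ℚ K : ℝ) := by exact_mod_cast Module.finrank_pos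
  obtain ⟨C, hC, h2⟩ := h1 η (σ' / Module.finrank ℚ K - (2 - η / 2)) hη hη2 (by
    rw [sub_pos, lt_div_iff₀ hn]
    linarith)
  refine ⟨C ^ Module.finrank ℚ K + 2, 1, fun T hT => ?_⟩
  obtain ⟨h3, h4, -⟩ := h2 K T hT
  have hT0 : 0 < T := by linarith
  have hsub : {x | x ∈ Fails K (c₀ * (1 - 2 * η)) ∧ H x ≤ T} ⊆ Exc K (c₀ * (1 - 2 * η)) T ∪ {0, 1728} := by
    rintro x ⟨h5, h6⟩
    by_cases h7 : x = 0
    · exact Or.inr (Or.inl h7)
    by_cases h8 : x = 1728
    · exact Or.inr (Or.inr h8)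
    refine Or.inl ⟨⟨h7, h8, ?_⟩, h5⟩
    have h9 : Height.logHeight₁ x / Module.finrank ℚ K ≤ Real.log T := (Real.le_log_iff_exp_le hT0).2 h6
    rw [div_le_iff₀ hn] at h9
    linarith
  have hfin : (Exc K (c₀ * (1 - 2 * η)) T).Finite := h3.subset fun x hx => hx.1
  have hfin2 : (Exc K (c₀ * (1 - 2 * η)) T ∪ {0, 1728}).Finite := hfin.union ((Set.finite_singleton _).insert _)
  refine ⟨hfin2.subset hsub, ?_⟩
  have h5 : (({x | x ∈ Fails K (c₀ * (1 - 2 * η)) ∧ H x ≤ T}.ncard : ℕ) : ℝ) ≤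
      ((Exc K (c₀ * (1 - 2 * η)) T).ncard : ℝ) + 2 := by
    have h6 : ({x | x ∈ Fails K (c₀ * (1 - 2 * η)) ∧ H x ≤ T}.ncard) ≤ (Exc K (c₀ * (1 - 2 * η)) T).ncard + 2 := by
      refine (Set.ncard_le_ncard hsub hfin2).trans ((Set.ncard_union_le _ _).trans ?_)
      have : ({0, 1728} : Set K).ncard ≤ 2 := by
        refine (Set.ncard_insert_le _ _).trans ?_
        rw [Set.ncard_singleton]
      omega
    exact_mod_cast h6
  have h6 : (C * T ^ (2 - η / 2 + (σ' / Module.finrank ℚ K - (2 - η / 2)))) ^ Module.finrank ℚ K =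
      C ^ Module.finrank ℚ K * T ^ σ' := by
    rw [mul_pow, ← Real.rpow_natCast (T ^ _), ← Real.rpow_mul hT0.le]
    congr 2
    rw [add_sub_cancel]
    exact div_mul_cancel₀ _ hn.ne'
  rw [h6] at h4
  have hσ0 : 0 ≤ σ' := by
    have : 0 ≤ (Module.finrank ℚ K : ℝ) * (2 - η / 2) := mul_nonneg hn.le (by linarith)
    linarith
  have h7 : (1 : ℝ) ≤ T ^ σ' := Real.one_le_rpow hT hσ0
  nlinarith

theorem strong_mono {K : Type} [Field K] [NumberField K] {c c' : ℝ} (h0 : 0 ≤ c') (h : c' ≤ c) {j : K}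
    (hj : Regulators c j) : Regulators c' j := by
  intro a b τ hD hab hτ
  obtain ⟨h1, h2⟩ := hj a b τ hD hab hτ
  have hm : (0 : ℝ) ≤ max (RegulatorsAllFields.faltings a b τ) 1 := le_trans zero_le_one (le_max_right _ _)
  refine ⟨fun g P hP => ?_, fun N P Q R hPQ hR => ?_⟩
  · obtain ⟨h3, h4⟩ := h1 g P hP
    refine ⟨le_trans ?_ h3, fun M hM => le_trans ?_ (h4 M hM)⟩
    · refine pow_le_pow_left₀ (by positivity) ?_ _
      exact mul_le_mul_of_nonneg_right (div_le_div_of_nonneg_right h (Nat.cast_nonneg _)) hm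
    · have hdet : (0 : ℝ) ≤ (M.det : ℝ) := by
        have h5 := hM.det_pos
        have h6 : (M.map (Int.cast : ℤ → ℝ)).det = (M.det : ℝ) := by
          have := (RingHom.map_det (Int.castRingHom ℝ) M).symm
          simpa using this
        rw [h6] at h5
        exact h5.le
      refine mul_le_mul_of_nonneg_right ?_ hdet
      exact pow_le_pow_left₀ (by positivity) (mul_le_mul_of_nonneg_right h hm) _
  · refine le_trans ?_ (h2 N P Q R hPQ hR)
    refine mul_le_mul_of_nonneg_right ?_ hm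
    have : (0 : ℝ) ≤ (N : ℝ) ^ 2 := by positivity
    nlinarith

/-- There is an absolute constant `c₀ > 0` such that:
(1) for every number field `K` of degree `n` with an embedding `φ : K → ℂ`, for `0 < η < 1/2` and `τ > 0`, the complex
numbers `z` with infinitely many `j ∈ K` for which the bounds with the constant `c₀ (1 - 2 η)` fail and
`|φ(j) - z| ≤ H(j)^(-τ)` form a set of Hausdorff dimension at most `n (2 - η / 2) / τ`;
(2) for almost every complex number `z`, for every number field `K ⊆ ℂ` and all `0 < c < c₀`, the bounds with the constant `c`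
hold for all but finitely many of the `j ∈ K` with `|j - z| ≤ H(j)^(-[K : ℚ])`;
(3) for almost every real number `t`, for every number field `K ⊆ ℂ` and all `0 < c < c₀`, the bounds with the constant `c`
hold for all but finitely many of the `j ∈ K` with `|j - t| ≤ H(j)^(-2 [K : ℚ])`. -/
theorem result : ∃ c₀ : ℝ, 0 < c₀ ∧
    (∀ (K : Type) [Field K] [NumberField K] (φ : K →+* ℂ) (η τ : ℝ), 0 < η → η < 1 / 2 → 0 < τ →
      dimH {z : ℂ | {j : K | j ∈ Fails K (c₀ * (1 - 2 * η)) ∧ ‖φ j - z‖ ≤ H j ^ (-τ)}.Infinite} ≤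
        ENNReal.ofReal ((Module.finrank ℚ K : ℝ) * (2 - η / 2) / τ)) ∧
    (∀ᵐ z : ℂ, ∀ (K : IntermediateField ℚ ℂ) [NumberField K] (c : ℝ), 0 < c → c < c₀ →
      {j : K | j ∈ Fails K c ∧ ‖(j : ℂ) - z‖ ≤ H j ^ (-(Module.finrank ℚ K : ℝ))}.Finite) ∧
    (∀ᵐ t : ℝ, ∀ (K : IntermediateField ℚ ℂ) [NumberField K] (c : ℝ), 0 < c → c < c₀ →
      {j : K | j ∈ Fails K c ∧ ‖(j : ℂ) - t‖ ≤ H j ^ (-(2 * (Module.finrank ℚ K : ℝ)))}.Finite) := by
  obtain ⟨c₀, hc₀, hcount⟩ := count
  have hη0 : ∀ k : ℕ, (0 : ℝ) < 1 / ((k : ℝ) + 3) := fun k => by positivity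
  have hη1 : ∀ k : ℕ, 1 / ((k : ℝ) + 3) < (1 / 2 : ℝ) := by
    intro k
    rw [div_lt_div_iff₀ (by positivity) (by norm_num)]
    linarith [(Nat.cast_nonneg k : (0 : ℝ) ≤ k)]
  have hn : ∀ (K : Type) [Field K] [NumberField K], (0 : ℝ) < (Module.finrank ℚ K : ℝ) := by
    intro K _ _
    exact_mod_cast Module.finrank_pos
  have hlt : ∀ (K : Type) [Field K] [NumberField K] (k : ℕ),
      (Module.finrank ℚ K : ℝ) * (2 - 1 / ((k : ℝ) + 3) / 2) < 2 * (Module.finrank ℚ K : ℝ) := by
    intro K _ _ k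
    have h1 := hn K
    have h2 := hη0 k
    nlinarith [mul_pos h1 h2]
  have hex : ∀ c : ℝ, c < c₀ → ∃ k : ℕ, c ≤ c₀ * (1 - 2 * (1 / ((k : ℝ) + 3))) := by
    intro c hc
    obtain ⟨k, hk⟩ := exists_nat_one_div_lt (show (0 : ℝ) < (c₀ - c) / (2 * c₀) by
      have : 0 < c₀ - c := by linarith
      positivity)
    refine ⟨k, ?_⟩
    have h1 : 1 / ((k : ℝ) + 3) ≤ 1 / ((k : ℝ) + 1) := by
      refine one_div_le_one_div_of_le (by positivity) (by linarith)
    have h2 : 1 / ((k : ℝ) + 3) < (c₀ - c) / (2 * c₀) := lt_of_le_of_lt h1 hk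
    rw [lt_div_iff₀ (by positivity)] at h2
    linarith
  refine ⟨c₀, hc₀, ?_, ?_, ?_⟩
  · intro K _ _ φ η τ hη hη2 hτ
    have h1 := Pool.Agent.Q229.RAH.dim φ (Fails K (c₀ * (1 - 2 * η))) H (hcount η hη hη2 K) τ hτ
    simp only [dist_eq_norm] at h1
    exact h1
  · have h1 := Pool.Agent.Q229.RAF.complex (fun K _ _ k => Fails K (c₀ * (1 - 2 * (1 / ((k : ℝ) + 3)))))
      (fun K _ _ x => H x) (fun K _ _ k => (Module.finrank ℚ K : ℝ) * (2 - 1 / ((k : ℝ) + 3) / 2))
      (fun K _ _ => (Module.finrank ℚ K : ℝ)) (fun K _ _ k σ' hσ => hcount _ (hη0 k) (hη1 k) K σ' hσ)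
      (fun K _ _ => hn K) (fun K _ _ k => hlt K k)
    filter_upwards [h1] with z hz K hK c hc0 hc
    obtain ⟨k, hk⟩ := hex c hc
    exact (hz K k).subset fun j hj => ⟨fun hcon => hj.1 (strong_mono hc0.le hk hcon), hj.2⟩
  · have h1 := Pool.Agent.Q229.RAF.real (fun K _ _ k => Fails K (c₀ * (1 - 2 * (1 / ((k : ℝ) + 3)))))
      (fun K _ _ x => H x) (fun K _ _ k => (Module.finrank ℚ K : ℝ) * (2 - 1 / ((k : ℝ) + 3) / 2))
      (fun K _ _ => (Module.finrank ℚ K : ℝ)) (fun K _ _ k σ' hσ => hcount _ (hη0 k) (hη1 k) K σ' hσ)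
      (fun K _ _ => hn K) (fun K _ _ k => hlt K k)
    filter_upwards [h1] with z hz K hK c hc0 hc
    obtain ⟨k, hk⟩ := hex c hc
    exact (hz K k).subset fun j hj => ⟨fun hcon => hj.1 (strong_mono hc0.le hk hcon), hj.2⟩

end Pool.Agent.Results.MP_9a3c31_nt.GoodApproximations
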