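import Pool.Agent.Results.MP_9a3c31_nt.AlmostAllInvariants
import Pool.Agent.Q229.RAS

/-!
# Lang and Silverman's lower bound for the elliptic curves with invariants near almost every real number

`Bound c g κ j` says: for every elliptic curve `E : y² = x³ + a x + b` over `ℚ` with the invariant `j`, `a`, `b` integers of height
at most `κ (1 + h(j))`, and every finite Galois extension `L` of `ℚ`, the lower bound of the question holds with the constant `c`
for all forms over `ℚ`, split by `L`, of the power `E ^ g`, all polarizations and all rational points with a dense orbit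
(for `g = 1`: for `E` and all its quadratic twists), see the starting file `AlmostAllInvariants` (there, too: every
`j ≠ 0, 1728` has such `a`, `b`, with an absolute `κ`).

In the starting file the bound holds, with one constant, for all invariants outside a set which is thin in the order by truncated
counting functions. Here we show that there is no exception near almost every real number: for every `τ > 1` there is a constant
`c > 0` such that for almost every real number `t` the bound holds for ALL but finitely many of the rational numbers `j` with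
`|t - j| ≤ den(j) ^ (-τ)`, in particular for the convergents of `t`.
-/

set_option autoImplicit false

namespace Pool.Agent.Results.MP_9a3c31_nt.RationalsNearRealInvariants

open Pool.Agent.TH910.LS Pool.Agent.Y725.LS NumberField MeasureTheory Filter
open Pool.Agent.Results.MP_9a3c31_nt.AlmostAllInvariants (LangSilverman)

/-- the bound, with the constant `c`, for all forms of dimension `g` of the powers of the elliptic curves
`y² = x³ + a x + b` over `ℚ` with the invariant `j` and coefficients of height at most `κ (1 + h(j))` -/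
def Bound (c : ℝ) (g : ℕ) (κ : ℝ) (j : ℚ) : Prop :=
  ∀ a b : 𝓞 ℚ, 4 * (a : ℚ) ^ 3 + 27 * (b : ℚ) ^ 2 ≠ 0 → jinv (a : ℚ) b = j →
    absH (a : ℚ) + absH (b : ℚ) ≤ κ * (1 + absH j) →
    ∀ (L : Type) [Field L] [NumberField L] [IsGalois ℚ L] [DecidableEq L],
      ChatLim L a b ∧ LangSilverman c g a b L

theorem core (g : ℕ) (κ s : ℝ) (hg : 0 < g) (hκ : 0 ≤ κ) (hs : 0 < s) : ∃ c : ℝ, 0 < c ∧ ∀ j : ℚ,
    Height.logHeight₁ j ≤ s * Pool.Agent.Y728.AK.jbad j → Bound c g κ j := by
  obtain ⟨c, δ, hc, hδ, h⟩ := dense_main 1 g 0 hg κ s hκ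
  obtain ⟨A, c₀, hc₀, h⟩ := h 1 one_ne_zero
  refine ⟨min c c₀, lt_min hc hc₀, fun j hj a b hab hjab hab' L _ _ _ _ =>
    ⟨chatLim a b hab L, fun ρ M P T hM hP hT hor => ?_⟩⟩
  have hSz := Pool.Agent.Q229.RAS.szp' hs.le hj hab hjab L hδ.le
  have hK : Module.finrank ℚ ℚ ≤ 1 := by rw [Module.finrank_self]
  refine le_trans ?_ (h ℚ hK a b hab (by rw [hjab]; exact hab') L hSz ρ M P T hM hP hT hor)
  have hpos : 0 ≤ 1 + absH (jinv (a : ℚ) b) + logNorms T / Module.finrank ℚ L := by
    have h2 := Pool.Agent.Y728.AK.absH_nonneg (jinv (a : ℚ) b)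
    have h3 : 0 ≤ logNorms T / Module.finrank ℚ L :=
      div_nonneg (Finset.sum_nonneg fun _ _ => Real.log_natCast_nonneg _) (Nat.cast_nonneg _)
    linarith
  refine mul_le_mul_of_nonneg_right ?_ hpos
  split_ifs
  · exact min_le_left _ _
  · exact min_le_right _ _

/-- **The Lang–Silverman bound for all curves with rational invariants near almost every real number.** Let `g ≥ 1` and
`κ ≥ 0`.

(1) For every `s > 0` there is a constant `c > 0` such that for every `τ > 0` there is a set `Z` of real numbers of Hausdorff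
dimension at most `(1 + 1 / s) / τ`, of measure zero if `τ > 1 + 1 / s`, such that for all `t ∉ Z` and all large `T` the bound
holds, with the constant `c`, for ALL rational invariants `j` of denominator at most `T` with `|t - j| ≤ T ^ (-τ)`.

(2) For every `τ > 1` there is a constant `c > 0` such that for almost every real number `t` the bound holds, with the constant
`c`, for all but finitely many of the rational invariants `j` with `|t - j| ≤ den(j) ^ (-τ)`. -/
theorem result (g : ℕ) (hg : 0 < g) (κ : ℝ) (hκ : 0 ≤ κ) :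
    (∀ s : ℝ, 0 < s → ∃ c : ℝ, 0 < c ∧ ∀ τ : ℝ, 0 < τ →
      ∃ Z : Set ℝ, dimH Z ≤ ENNReal.ofReal ((1 + 1 / s) / τ) ∧ (1 + 1 / s < τ → volume Z = 0) ∧
        ∀ t : ℝ, t ∉ Z → ∀ᶠ T : ℝ in atTop, ∀ j : ℚ, (j.den : ℝ) ≤ T → |t - j| ≤ T ^ (-τ) → Bound c g κ j) ∧
    ∀ τ : ℝ, 1 < τ → ∃ c : ℝ, 0 < c ∧ ∀ᵐ t : ℝ,
      {j : ℚ | |t - j| ≤ (j.den : ℝ) ^ (-τ) ∧ ¬ Bound c g κ j}.Finite := by
  constructor
  · intro s hs
    obtain ⟨c, hc, h⟩ := core g κ s hg hκ hs
    refine ⟨c, hc, fun τ hτ => ?_⟩
    obtain ⟨Z, h1, h2, h3⟩ := Pool.Agent.Q229.RAS.near_szp hs τ hτ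
    refine ⟨Z, h1, h2, fun t ht => ?_⟩
    filter_upwards [(h3 t ht).2] with T hT j hj hjt
    exact h j (hT j hj hjt)
  · intro τ hτ
    have hτ1 : 0 < τ - 1 := by linarith
    have hs : 0 < 2 / (τ - 1) := by positivity
    obtain ⟨c, hc, h⟩ := core g κ (2 / (τ - 1)) hg hκ hs
    refine ⟨c, hc, ?_⟩
    have hτ0 : 0 < τ := by linarith
    obtain ⟨Z, -, h2, h3⟩ := Pool.Agent.Q229.RAS.near_szp hs τ hτ0
    have hlt : 1 + 1 / (2 / (τ - 1)) < τ := by
      rw [one_div_div]
      linarith
    filter_upwards [compl_mem_ae_iff.2 (h2 hlt)] with t ht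
    have h4 : ∀ᶠ T : ℝ in atTop, ∀ x : ℚ, (x.den : ℝ) ≤ T → |t - x| ≤ T ^ (-τ) → x ∉ {j : ℚ | ¬ Bound c g κ j} := by
      filter_upwards [(h3 t ht).2] with T hT x hx hxt hcon
      exact hcon (h x (hT x hx hxt))
    refine (Pool.Agent.Q229.RAQ.finite_den hτ0 h4).subset ?_
    rintro x ⟨hx1, hx2⟩
    exact ⟨hx2, hx1⟩

end Pool.Agent.Results.MP_9a3c31_nt.RationalsNearRealInvariants
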